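import Mathlib

/-!
Project JA (MP_a0040c_lc): converting jumping automata with regular languages into DFAs.
Definitions and statements of the pieces.
-/

set_option autoImplicit false

namespace Pool.Agent.K1H35.JA

open Finset

/-- general finite automaton with states `Fin n` and letters `Fin k`; `none` is the empty word -/
structure Aut (n k : ℕ) where
  step : Fin n → Option (Fin k) → Fin n → Prop
  start : Fin n
  acc : Fin n → Prop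

/-- one step of the jumping automaton -/
def Step {n k : ℕ} (A : Aut n k) (c c' : Fin n × List (Fin k)) : Prop :=
  ∃ (a : Option (Fin k)) (u v : List (Fin k)),
    A.step c.1 a c'.1 ∧ c.2 = u ++ a.toList ++ v ∧ c'.2 = u ++ v

/-- the language of the jumping automaton -/
def JL {n k : ℕ} (A : Aut n k) : Language (Fin k) :=
  {w | ∃ q, A.acc q ∧ Relation.ReflTransGen (Step A) (A.start, w) (q, [])}

/-- state complexity: the least number of states of a complete DFA which accepts `L` -/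
noncomputable def sc {k : ℕ} (L : Language (Fin k)) : ℕ :=
  sInf {m | ∃ M : DFA (Fin k) (Fin m), M.accepts = L}

/-- the values over which the maximum `f n k` is taken -/
def vals (n k : ℕ) : Set ℕ := {m | ∃ A : Aut n k, (JL A).IsRegular ∧ m = sc (JL A)}

/-- the conversion cost -/
noncomputable def f (n k : ℕ) : ℕ := sSup (vals n k)

/-! ### Parikh vectors -/

/-- unit vector -/
def e {k : ℕ} (i : Fin k) : Fin k → ℕ := Pi.single i 1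

/-- Parikh vector of a label -/
def vec {k : ℕ} : Option (Fin k) → (Fin k → ℕ)
  | none => 0
  | some i => e i

/-- there is a walk from `q` to `r` with Parikh vector `x` -/
inductive Reach {n k : ℕ} (A : Aut n k) : Fin n → (Fin k → ℕ) → Fin n → Prop
  | nil (q : Fin n) : Reach A q 0 q
  | cons {q r s : Fin n} {a : Option (Fin k)} {x : Fin k → ℕ} :
      A.step q a r → Reach A r x s → Reach A q (vec a + x) s

/-- Parikh vectors of accepting walks -/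
def SA {n k : ℕ} (A : Aut n k) : Set (Fin k → ℕ) := {x | ∃ q, A.acc q ∧ Reach A A.start x q}

/-- Parikh vector of a word -/
def pk {k : ℕ} (w : List (Fin k)) : Fin k → ℕ := fun i => w.count i

/-- Piece JL. -/
def S_JL : Prop := ∀ (n k : ℕ) (A : Aut n k) (w : List (Fin k)), w ∈ JL A ↔ pk w ∈ SA A

/-- Piece UPD (from JL). -/
def S_UPD : Prop := ∀ (n k N : ℕ) (A : Aut n k) (Λ : Fin k → ℕ), (∀ i, 0 < Λ i) →
  (∀ (i : Fin k) (x : Fin k → ℕ), N ≤ x i → (x ∈ SA A ↔ x + Λ i • e i ∈ SA A)) →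
  sc (JL A) ≤ ∏ i, (N + Λ i)

/-- Piece REG (from JL). -/
def S_REG : Prop := ∀ (n k : ℕ) (A : Aut n k), (JL A).IsRegular → ∀ i : Fin k,
  ∃ T P : ℕ, 0 < P ∧ ∀ x : Fin k → ℕ, T ≤ x i → (x ∈ SA A ↔ x + P • e i ∈ SA A)

/-! ### Semilinear representation -/

/-- walk with Parikh vector, length and set of visited states -/
inductive RU {n k : ℕ} (A : Aut n k) : Fin n → (Fin k → ℕ) → ℕ → Finset (Fin n) → Fin n → Prop
  | nil (q : Fin n) : RU A q 0 0 {q} q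
  | cons {q r s : Fin n} {a : Option (Fin k)} {x : Fin k → ℕ} {l : ℕ} {U : Finset (Fin n)} :
      A.step q a r → RU A r x l U s → RU A q (vec a + x) (l + 1) (insert q U) s

/-- Parikh vectors of closed walks of length at most `n` at states of `U` -/
def Cyc {n k : ℕ} (A : Aut n k) (U : Finset (Fin n)) : Set (Fin k → ℕ) :=
  {p | ∃ u ∈ U, ∃ (m : ℕ) (W : Finset (Fin n)), m ≤ n ∧ RU A u p m W u}

/-- Piece REM: removing cycles from a walk without changing the set of visited states. -/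
def S_REM : Prop := ∀ (n k : ℕ) (A : Aut n k) (q r : Fin n) (x : Fin k → ℕ) (l : ℕ)
  (U : Finset (Fin n)), RU A q x l U r → ∃ (b y : Fin k → ℕ) (l' : ℕ), l' ≤ (n + 1) ^ 2 ∧
    RU A q b l' U r ∧ y ∈ AddSubmonoid.closure (Cyc A U) ∧ x = b + y

/-- Piece SEMI (from REM). -/
def S_SEMI : Prop := ∀ (n k : ℕ) (A : Aut n k), ∃ F : Set ((Fin k → ℕ) × Set (Fin k → ℕ)),
  (∀ z ∈ F, (∀ j, z.1 j ≤ (n + 1) ^ 2) ∧ ∀ p ∈ z.2, ∀ j, p j ≤ n) ∧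
  ∀ x, x ∈ SA A ↔ ∃ z ∈ F, ∃ y ∈ AddSubmonoid.closure z.2, x = z.1 + y

/-! ### Linear algebra over the integers -/

/-- bound for minors -/
def M1 (k m : ℕ) : ℕ := k.factorial * m ^ k

/-- Piece FUN: dual vectors with small entries. -/
def S_FUN : Prop := ∀ (k m : ℕ), 1 ≤ m → ∀ P : Finset (Fin k → ℤ),
  (∀ p ∈ P, ∀ j, |p j| ≤ (m : ℤ)) → LinearIndependent ℤ (fun p : P => (p : Fin k → ℤ)) →
  ∃ (Δ : ℤ) (a : (Fin k → ℤ) → (Fin k → ℤ)) (Z : Finset (Fin k → ℤ)),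
    0 < Δ ∧ Δ ≤ (M1 k m : ℤ) ∧ (∀ p ∈ P, ∀ j, |a p j| ≤ (M1 k m : ℤ)) ∧
    (∀ z ∈ Z, ∀ j, |z j| ≤ (M1 k m : ℤ)) ∧
    (∀ p ∈ P, ∀ q ∈ P, a p ⬝ᵥ q = if p = q then Δ else 0) ∧
    (∀ z ∈ Z, ∀ q ∈ P, z ⬝ᵥ q = 0) ∧
    (∀ z : Fin k → ℤ, (∀ ζ ∈ Z, ζ ⬝ᵥ z = 0) → Δ • z = ∑ p ∈ P, (a p ⬝ᵥ z) • p)

/-- cast -/
def cz {k : ℕ} (x : Fin k → ℕ) : Fin k → ℤ := fun j => (x j : ℤ)

def M0 (k m : ℕ) : ℕ := (k * m + 1) * M1 k m
def R0 (k m : ℕ) : ℕ := (m + 1) ^ k * M0 k m * m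

/-- Piece CARA (from FUN): Caratheodory's theorem for integer cones. -/
def S_CARA : Prop := ∀ (k m : ℕ) (P : Set (Fin k → ℕ)), 1 ≤ m → (∀ p ∈ P, ∀ j, p j ≤ m) →
  ∀ y ∈ AddSubmonoid.closure P, ∃ (Q : Finset (Fin k → ℕ)) (r : Fin k → ℕ)
    (c : (Fin k → ℕ) → ℕ), (Q : Set (Fin k → ℕ)) ⊆ P ∧
    LinearIndependent ℤ (fun p : Q => cz (p : Fin k → ℕ)) ∧
    r ∈ AddSubmonoid.closure P ∧ (∀ j, r j ≤ R0 k m) ∧ y = r + ∑ p ∈ Q, c p • p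

/-- `v` is a direction in which `x` can be moved without leaving the cell of `x` -/
def Comp (k M C : ℕ) (x v : Fin k → ℤ) : Prop := ∀ a : Fin k → ℤ, (∀ j, |a j| ≤ (M : ℤ)) →
  (|a ⬝ᵥ x| ≤ (C : ℤ) → a ⬝ᵥ v = 0) ∧ ((C : ℤ) < a ⬝ᵥ x → 0 ≤ a ⬝ᵥ v)

/-- Piece MEM (from FUN): membership in a simplicial linear set is constant on cells. -/
def S_MEM : Prop := ∀ (k m R C D t : ℕ) (Q : Finset (Fin k → ℕ)) (b x v : Fin k → ℕ),
  1 ≤ m → (∀ p ∈ Q, ∀ j, p j ≤ m) → LinearIndependent ℤ (fun p : Q => cz (p : Fin k → ℕ)) →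
  (∀ j, b j ≤ R) → k * M1 k m * R ≤ C → (∀ d, 0 < d → d ≤ M1 k m → d ∣ D) →
  Comp k (M1 k m) C (cz x) (cz v) →
  ((∃ c : (Fin k → ℕ) → ℕ, x = b + ∑ p ∈ Q, c p • p) ↔
    ∃ c : (Fin k → ℕ) → ℕ, x + (t * D) • v = b + ∑ p ∈ Q, c p • p)

/-- Piece CMP. -/
def S_CMP : Prop := ∀ (k M C Λ : ℕ) (x v : Fin k → ℕ) (i : Fin k),
  Comp k M (C + M * Λ) (cz x) (cz v) →
  Comp k M C (cz x) (cz v) ∧ Comp k M C (cz (x + Λ • e i)) (cz v)

def Gam (k M : ℕ) : ℕ := 1 + k ^ 2 * M * M1 k M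

/-- Piece LP (from FUN): existence of good directions. -/
def S_LP : Prop := ∀ (k M C : ℕ) (x : Fin k → ℕ) (i : Fin k), 1 ≤ M → 1 ≤ C →
  Gam k M ^ (k + 1) * C < x i → ∃ v : Fin k → ℕ, 0 < v i ∧ Comp k M C (cz x) (cz v)

/-- bound for the constants -/
def CB (k n : ℕ) : ℕ := k * M1 k n * ((n + 1) ^ 2 + R0 k n) + 1

/-- Piece PUMP (from SEMI, CARA, MEM, CMP, LP). -/
def S_PUMP : Prop := ∀ (n k : ℕ) (A : Aut n k) (i : Fin k) (Λ : ℕ) (x : Fin k → ℕ),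
  Gam k (M1 k n) ^ (k + 1) * (CB k n + M1 k n * Λ) < x i →
  ∃ v : Fin k → ℕ, 0 < v i ∧ ∀ t : ℕ, (x ∈ SA A ↔ x + t • v ∈ SA A) ∧
    (x + Λ • e i ∈ SA A ↔ x + Λ • e i + t • v ∈ SA A)

/-! ### Periods -/

/-- `Λ` is a multiple of the gcd of the weights of the closed walks at every state, where only
walks with labels `i` and `none` are considered -/
def PerOK {n k : ℕ} (A : Aut n k) (i : Fin k) (Λ : ℕ) : Prop :=
  0 < Λ ∧ ∀ (q : Fin n) (g : ℕ), (∀ a, Reach A q (a • e i) q → g ∣ a) →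
    (∃ a, 0 < a ∧ Reach A q (a • e i) q) → g ∣ Λ

/-- Piece SL0: a walk of large weight contains a closed walk of large weight. -/
def S_SL0 : Prop := ∀ (n k T W : ℕ) (A : Aut n k) (i : Fin k) (q r : Fin n),
  n * (T + 1) ≤ W → Reach A q (W • e i) r → ∃ (u : Fin n) (W1 W2 W3 : ℕ),
    Reach A q (W1 • e i) u ∧ Reach A u (W2 • e i) u ∧ Reach A u (W3 • e i) r ∧
    W = W1 + W2 + W3 ∧ T ≤ W2

/-- Piece SLICE (from SL0). -/
def S_SLICE : Prop := ∀ (n k : ℕ) (A : Aut n k) (i : Fin k) (Λ : ℕ), PerOK A i Λ →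
  ∀ x : Fin k → ℕ, ∃ T, ∀ m, T ≤ m → (x + m • e i ∈ SA A ↔ x + (m + Λ) • e i ∈ SA A)

/-- Piece LAN1. -/
def S_LAN1 : Prop := ∀ (n k : ℕ) (A : Aut n k) (i : Fin k), ∃ V : Finset ℕ,
  (∀ v ∈ V, 0 < v) ∧ ∑ v ∈ V, v ≤ n ∧ PerOK A i (V.lcm id)

/-- Piece LAN2: Landau's function. -/
def S_LAN2 : Prop := ∃ C : ℝ, 0 < C ∧ ∀ (n : ℕ) (V : Finset ℕ), 2 ≤ n → (∀ v ∈ V, 0 < v) →
  ∑ v ∈ V, v ≤ n → ((V.lcm id : ℕ) : ℝ) ≤ Real.exp (C * Real.sqrt (n * Real.log n))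

/-- threshold -/
def Nthr (k n Λ : ℕ) : ℕ := Gam k (M1 k n) ^ (k + 1) * (CB k n + M1 k n * Λ) + 1

/-- Piece NUM. -/
def S_NUM : Prop := ∀ C0 : ℝ, 0 < C0 → ∃ C : ℝ, 0 < C ∧ ∀ (n k Λ : ℕ), 2 ≤ n → 1 ≤ k → 1 ≤ Λ →
  (Λ : ℝ) ≤ Real.exp (C0 * Real.sqrt (n * Real.log n)) →
  ((Nthr k n Λ + Λ : ℕ) : ℝ) ^ k ≤
    Real.exp (C * (k * Real.sqrt (n * Real.log n) + (k : ℝ) ^ 4 * Real.log (n + k)))

/-! ### The lower bound -/

/-- Piece LOWA. -/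
def S_LOWA : Prop := ∀ (n k : ℕ) (V : Finset ℕ), 1 ≤ k → (∀ p ∈ V, p.Prime) → V.Nonempty →
  ∑ p ∈ V, p + 1 ≤ n → ∃ A : Aut n k, (JL A).IsRegular ∧ ∏ p ∈ V, p ≤ sc (JL A)

/-- Piece LOWB. -/
def S_LOWB : Prop := ∃ (c : ℝ) (n0 : ℕ), 0 < c ∧ ∀ n : ℕ, n0 ≤ n → ∃ V : Finset ℕ,
  (∀ p ∈ V, p.Prime) ∧ V.Nonempty ∧ ∑ p ∈ V, p + 1 ≤ n ∧
  Real.exp (c * Real.sqrt (n * Real.log n)) ≤ ((∏ p ∈ V, p : ℕ) : ℝ)

/-- Piece LOW (from LOWA, LOWB). -/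
def S_LOW : Prop := ∃ c : ℝ, 0 < c ∧ ∀ n k : ℕ, 2 ≤ n → 1 ≤ k →
  ∃ A : Aut n k, (JL A).IsRegular ∧ Real.exp (c * Real.sqrt (n * Real.log n)) ≤ (sc (JL A) : ℝ)

end Pool.Agent.K1H35.JA
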