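import Pool.Agent.K1H35.JA.Stm

namespace Pool.Agent.K1H35.JA.Semi

open Pool.Agent.K1H35.JA Finset

variable {n k : ℕ}

theorem vec_le (a : Option (Fin k)) (j : Fin k) : vec a j ≤ 1 := by
  cases a with
  | none => simp [vec]
  | some i =>
    simp only [vec, e]
    by_cases h : j = i
    · subst h; simp
    · simp [h]

theorem RU_le {A : Aut n k} {q r : Fin n} {x : Fin k → ℕ} {l : ℕ} {U : Finset (Fin n)}
    (h : RU A q x l U r) (j : Fin k) : x j ≤ l := by
  induction h with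
  | nil q => simp
  | @cons q r s a x l U _ _ ih =>
    have := vec_le a j
    simp only [Pi.add_apply]
    omega

theorem RU_reach {A : Aut n k} {q r : Fin n} {x : Fin k → ℕ} {l : ℕ} {U : Finset (Fin n)}
    (h : RU A q x l U r) : Reach A q x r := by
  induction h with
  | nil q => exact Reach.nil q
  | cons h1 _ ih => exact Reach.cons h1 ih

theorem reach_RU {A : Aut n k} {q r : Fin n} {x : Fin k → ℕ} (h : Reach A q x r) :
    ∃ l U, RU A q x l U r := by
  induction h with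
  | nil q => exact ⟨0, {q}, RU.nil q⟩
  | cons h1 _ ih =>
    obtain ⟨l, U, h2⟩ := ih
    exact ⟨_, _, RU.cons h1 h2⟩

/-- concatenation of walks -/
theorem RU_trans {A : Aut n k} {q r s : Fin n} {x y : Fin k → ℕ} {l m : ℕ} {U W : Finset (Fin n)}
    (h : RU A q x l U r) (h2 : RU A r y m W s) :
    ∃ l' U', U ⊆ U' ∧ W ⊆ U' ∧ RU A q (x + y) l' U' s := by
  induction h with
  | nil q =>
    refine ⟨m, W, ?_, subset_rfl, by rw [zero_add]; exact h2⟩
    cases h2 with
    | nil _ => exact subset_rfl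
    | cons _ _ => simp
  | @cons q r' s' a x l U h1 _ ih =>
    obtain ⟨l', U', a1, a2, a3⟩ := ih h2
    refine ⟨l' + 1, insert q U', insert_subset_insert _ a1, a2.trans (subset_insert _ _), ?_⟩
    rw [add_assoc]
    exact RU.cons h1 a3

theorem start_mem {A : Aut n k} {q r : Fin n} {x : Fin k → ℕ} {l : ℕ} {U : Finset (Fin n)}
    (h : RU A q x l U r) : q ∈ U := by
  cases h with
  | nil _ => simp
  | cons _ _ => simp

/-- insertion of a closed walk -/
theorem RU_ins {A : Aut n k} {q r : Fin n} {x : Fin k → ℕ} {l : ℕ} {U : Finset (Fin n)}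
    (h : RU A q x l U r) {u : Fin n} (hu : u ∈ U) {p : Fin k → ℕ} {m : ℕ} {W : Finset (Fin n)}
    (hp : RU A u p m W u) : ∃ l' U', U ⊆ U' ∧ RU A q (x + p) l' U' r := by
  induction h with
  | nil q =>
    rw [mem_singleton] at hu
    subst hu
    obtain ⟨l', U', a1, a2, a3⟩ := RU_trans (RU.nil u) hp
    exact ⟨l', U', a1, a3⟩
  | @cons q r' s' a x l U h1 h3 ih =>
    by_cases hq : u = q
    · subst hq
      obtain ⟨l', U', a1, a2, a3⟩ := RU_trans hp (RU.cons h1 h3)
      refine ⟨l', U', a2, ?_⟩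
      rw [add_comm]
      exact a3
    · have hu' : u ∈ U := by
        rw [mem_insert] at hu
        exact hu.resolve_left hq
      obtain ⟨l', U', a1, a3⟩ := ih hu'
      refine ⟨l' + 1, insert q U', insert_subset_insert _ a1, ?_⟩
      rw [add_assoc]
      exact RU.cons h1 a3

theorem Cyc_mono (A : Aut n k) {U U' : Finset (Fin n)} (h : U ⊆ U') : Cyc A U ⊆ Cyc A U' := by
  rintro p ⟨u, hu, m, W, h1, h2⟩
  exact ⟨u, h hu, m, W, h1, h2⟩

theorem ins {A : Aut n k} {q r : Fin n} {U0 : Finset (Fin n)} {y : Fin k → ℕ}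
    (hy : y ∈ AddSubmonoid.closure (Cyc A U0)) :
    ∀ (b : Fin k → ℕ) (l : ℕ) (U : Finset (Fin n)), U0 ⊆ U → RU A q b l U r →
      ∃ l' U', U ⊆ U' ∧ RU A q (b + y) l' U' r := by
  induction hy using AddSubmonoid.closure_induction with
  | mem p hp =>
    intro b l U hU h
    obtain ⟨u, hu, m, W, _, h2⟩ := hp
    exact RU_ins h (hU hu) h2
  | zero =>
    intro b l U hU h
    exact ⟨l, U, subset_rfl, by rw [add_zero]; exact h⟩
  | add y1 y2 _ _ ih1 ih2 =>
    intro b l U hU h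
    obtain ⟨l1, U1, a1, a2⟩ := ih1 b l U hU h
    obtain ⟨l2, U2, b1, b2⟩ := ih2 (b + y1) l1 U1 (hU.trans a1) a2
    refine ⟨l2, U2, a1.trans b1, ?_⟩
    rw [← add_assoc]
    exact b2

theorem t_SEMI (hR : S_REM) : S_SEMI := by
  intro n k A
  refine ⟨{z | ∃ q l U, A.acc q ∧ l ≤ (n + 1) ^ 2 ∧ RU A A.start z.1 l U q ∧ z.2 = Cyc A U}, ?_, ?_⟩
  · rintro ⟨b, P⟩ ⟨q, l, U, _, hl, hb, hP⟩
    refine ⟨fun j => (RU_le hb j).trans hl, ?_⟩
    intro p hp j
    simp only at hP hp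
    rw [hP] at hp
    obtain ⟨u, _, m, W, hm, h2⟩ := hp
    exact (RU_le h2 j).trans hm
  · intro x
    constructor
    · rintro ⟨q, hq, hx⟩
      obtain ⟨l, U, h⟩ := reach_RU hx
      obtain ⟨b, y, l', h1, h2, h3, h4⟩ := hR n k A A.start q x l U h
      exact ⟨(b, Cyc A U), ⟨q, l', U, hq, h1, h2, rfl⟩, y, h3, h4⟩
    · rintro ⟨⟨b, P⟩, ⟨q, l, U, hq, _, hb, hP⟩, y, hy, rfl⟩
      simp only at hP hy hb
      rw [hP] at hy
      obtain ⟨l', U', _, h⟩ := ins hy b l U subset_rfl hb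
      exact ⟨q, hq, RU_reach h⟩

end Pool.Agent.K1H35.JA.Semi
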