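import Pool.Agent.K1H35.JA.Comb
import Pool.Agent.K1H35.JA.Semi
import Pool.Agent.K1H25.JA.JL
import Pool.Agent.K1H72.JA.UPD
import Pool.Agent.K1H60.JA.REG
import Pool.Agent.K1H12.JA.REM
import Pool.Agent.K1H41.JA.FUN
import Pool.Agent.K1H56.JA.Cara
import Pool.Agent.K1H92.JA.Mem
import Pool.Agent.K1H85.JA.Pump
import Pool.Agent.K1H94.JA.SL0
import Pool.Agent.K1H52.JA.SLICE
import Pool.Agent.K1H23.JA.Lan1
import Pool.Agent.K1H27.JA.LAN2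
import Pool.Agent.K1H33.JA.Num
import Pool.Agent.K1H10.JA.LowA
import Pool.Agent.K1H1.JA.Low
import Pool.Agent.K1H82.JA.LP

namespace Pool.Agent.K1H35.JA

theorem r_JL : S_JL := Pool.Agent.K1H25.JA.t_JL
theorem r_UPD : S_UPD := Pool.Agent.K1H72.JA.t_UPD r_JL
theorem r_REG : S_REG := Pool.Agent.K1H60.JA.t_REG r_JL
theorem r_REM : S_REM := Pool.Agent.K1H12.JA.t_REM
theorem r_SEMI : S_SEMI := Semi.t_SEMI r_REM
theorem r_FUN : S_FUN := Pool.Agent.K1H41.JA.t_FUN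
theorem r_CARA : S_CARA := Pool.Agent.K1H56.JA.t_CARA r_FUN
theorem r_MEM : S_MEM := Pool.Agent.K1H92.JA.t_MEM r_FUN
theorem r_CMP : S_CMP := Pool.Agent.K1H85.JA.t_CMP
theorem r_SL0 : S_SL0 := Pool.Agent.K1H94.JA.t_SL0
theorem r_SLICE : S_SLICE := Pool.Agent.K1H52.JA.t_SLICE r_SL0
theorem r_LAN1 : S_LAN1 := Pool.Agent.K1H23.JA.t_LAN1
theorem r_LAN2 : S_LAN2 := Pool.Agent.K1H27.JA.t_LAN2
theorem r_NUM : S_NUM := Pool.Agent.K1H33.JA.t_NUM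
theorem r_LOWA : S_LOWA := Pool.Agent.K1H10.JA.t_LOWA r_JL
theorem r_LOWB : S_LOWB := Pool.Agent.K1H1.JA.t_LOWB
theorem r_LOW : S_LOW := Pool.Agent.K1H1.JA.t_LOW r_LOWA r_LOWB
theorem r_LP : S_LP := Pool.Agent.K1H82.JA.t_LP r_FUN
theorem r_UP : S_UP := t_UP r_UPD r_REG r_SLICE
  (Pool.Agent.K1H85.JA.t_PUMP r_SEMI r_CARA r_MEM r_CMP r_LP) r_LAN1 r_LAN2 r_NUM

end Pool.Agent.K1H35.JA
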