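import Pool.Agent.K1H35.JA.Stm

namespace Pool.Agent.K1H35.JA

open Finset

/-- iterate the periodicity -/
theorem iter {n k : ℕ} (A : Aut n k) (i : Fin k) (T P : ℕ)
    (h : ∀ x : Fin k → ℕ, T ≤ x i → (x ∈ SA A ↔ x + P • e i ∈ SA A)) (s : ℕ) :
    ∀ x : Fin k → ℕ, T ≤ x i → (x ∈ SA A ↔ x + (s * P) • e i ∈ SA A) := by
  induction s with
  | zero => intro x _; simp
  | succ s ih =>
    intro x hx
    rw [ih x hx, h (x + (s * P) • e i)]
    · have : x + (s * P) • e i + P • e i = x + ((s + 1) * P) • e i := by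
        rw [add_assoc, ← add_smul]; congr 2; ring
      rw [this]
    · simp only [Pi.add_apply]
      omega

theorem comb {n k : ℕ} (A : Aut n k) (hR : S_REG) (hS : S_SLICE) (hP : S_PUMP)
    (hreg : (JL A).IsRegular) (i : Fin k) (Λ : ℕ) (hΛ : PerOK A i Λ) (x : Fin k → ℕ)
    (hx : Gam k (M1 k n) ^ (k + 1) * (CB k n + M1 k n * Λ) < x i) :
    x ∈ SA A ↔ x + Λ • e i ∈ SA A := by
  obtain ⟨v, hv, hv2⟩ := hP n k A i Λ x hx
  obtain ⟨T, P, hP0, hT⟩ := hR n k A hreg i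
  -- X = x + T v
  have hXi : T ≤ (x + T • v) i := by
    simp only [Pi.add_apply, Pi.smul_apply, smul_eq_mul]
    nlinarith
  obtain ⟨T', hT'⟩ := hS n k A i Λ hΛ (x + T • v)
  have e1 := (hv2 T).1
  have e2 := (hv2 T).2
  rw [e1, e2]
  have h1 := iter A i T P hT T' (x + T • v) hXi
  have hXi2 : T ≤ (x + Λ • e i + T • v) i := by
    simp only [Pi.add_apply, Pi.smul_apply, smul_eq_mul] at hXi ⊢
    omega
  have h2 := iter A i T P hT T' (x + Λ • e i + T • v) hXi2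
  have h3 := hT' (T' * P) (Nat.le_mul_of_pos_right _ hP0)
  rw [h1, h2, h3]
  have : x + T • v + (T' * P + Λ) • e i = x + Λ • e i + T • v + (T' * P) • e i := by
    rw [add_smul]
    abel
  rw [this]

theorem up {n k : ℕ} (A : Aut n k) (hJ : S_UPD) (hR : S_REG) (hS : S_SLICE) (hP : S_PUMP)
    (hreg : (JL A).IsRegular) (Λ : ℕ) (V : Fin k → Finset ℕ)
    (hV : ∀ i, PerOK A i ((V i).lcm id)) (hL : ∀ i, (V i).lcm id ≤ Λ) :
    sc (JL A) ≤ (Nthr k n Λ + Λ) ^ k := by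
  have h1 := hJ n k (Nthr k n Λ) A (fun i => (V i).lcm id) (fun i => (hV i).1) (by
    intro i x hx
    apply comb A hR hS hP hreg i _ (hV i) x
    unfold Nthr at hx
    have : Gam k (M1 k n) ^ (k + 1) * (CB k n + M1 k n * (V i).lcm id) ≤
        Gam k (M1 k n) ^ (k + 1) * (CB k n + M1 k n * Λ) := by
      have := hL i
      gcongr
    omega)
  refine h1.trans ?_
  calc ∏ i, (Nthr k n Λ + (V i).lcm id) ≤ ∏ _i : Fin k, (Nthr k n Λ + Λ) := by
        apply Finset.prod_le_prod'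
        intro i _
        have := hL i
        omega
    _ = (Nthr k n Λ + Λ) ^ k := by simp

/-- the upper bound -/
def S_UP : Prop := ∃ C : ℝ, 0 < C ∧ ∀ (n k : ℕ) (A : Aut n k), 2 ≤ n → 1 ≤ k →
  (JL A).IsRegular → (sc (JL A) : ℝ) ≤
    Real.exp (C * (k * Real.sqrt (n * Real.log n) + (k : ℝ) ^ 4 * Real.log (n + k)))

theorem t_UP (hJ : S_UPD) (hR : S_REG) (hS : S_SLICE) (hP : S_PUMP) (h1 : S_LAN1) (h2 : S_LAN2)
    (hN : S_NUM) : S_UP := by
  obtain ⟨C0, hC0, hl⟩ := h2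
  obtain ⟨C, hC, hn⟩ := hN C0 hC0
  refine ⟨C, hC, ?_⟩
  intro n k A hn2 hk hreg
  choose V hV1 hV2 hV3 using h1 n k A
  -- maximum of the lcms
  have hkk : (Finset.univ : Finset (Fin k)).Nonempty := ⟨⟨0, hk⟩, Finset.mem_univ _⟩
  obtain ⟨i0, _, hi0⟩ := Finset.exists_max_image Finset.univ (fun i => (V i).lcm id) hkk
  have h3 := up A hJ hR hS hP hreg ((V i0).lcm id) V hV3 (fun i => hi0 i (Finset.mem_univ _))
  have h4 := hn n k ((V i0).lcm id) hn2 hk (hV3 i0).1 (hl n (V i0) hn2 (hV1 i0) (hV2 i0))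
  refine le_trans ?_ h4
  exact_mod_cast h3

/-- the theorem -/
def S_FIN : Prop :=
  (∃ C : ℝ, 0 < C ∧ ∀ n k : ℕ, 2 ≤ n → 1 ≤ k → (vals n k).Nonempty ∧ BddAbove (vals n k) ∧
    (f n k : ℝ) ≤
      Real.exp (C * (k * Real.sqrt (n * Real.log n) + (k : ℝ) ^ 4 * Real.log (n + k)))) ∧
  (∃ c : ℝ, 0 < c ∧ ∀ n k : ℕ, 2 ≤ n → 1 ≤ k →
    Real.exp (c * Real.sqrt (n * Real.log n)) ≤ (f n k : ℝ)) ∧
  (∀ k : ℕ, 1 ≤ k → ∃ C : ℝ, 0 < C ∧ ∀ n : ℕ, 2 ≤ n →
    (f n k : ℝ) ≤ Real.exp (C * Real.sqrt (n * Real.log n)))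

theorem log_le_sqrt (n k : ℕ) (hn : 2 ≤ n) (hk : 1 ≤ k) :
    Real.log (n + k) ≤ 4 * k * Real.sqrt (n * Real.log n) := by
  have hn0 : (2 : ℝ) ≤ n := by exact_mod_cast hn
  have hk0 : (1 : ℝ) ≤ k := by exact_mod_cast hk
  have h1 : ((n : ℝ) + k) ≤ n * (2 * k) := by nlinarith
  have h2 : Real.log (n + k) ≤ Real.log n + Real.log (2 * k) := by
    rw [← Real.log_mul (by positivity) (by positivity)]
    exact Real.log_le_log (by positivity) h1
  have hlog2 : (0.69 : ℝ) < Real.log n := by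
    have := Real.log_two_gt_d9
    have := Real.log_le_log (by norm_num) hn0
    linarith
  have hlogn : Real.log n ≤ n := by
    have := Real.log_le_sub_one_of_pos (show (0 : ℝ) < n by linarith)
    linarith
  have h3 : Real.log n ≤ Real.sqrt (n * Real.log n) := by
    apply Real.le_sqrt_of_sq_le
    have : 0 ≤ Real.log n := by linarith
    nlinarith
  have h4 : 1 ≤ Real.sqrt (n * Real.log n) := by
    rw [Real.one_le_sqrt]; nlinarith
  have h5 : Real.log (2 * k) ≤ 2 * k := by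
    have := Real.log_le_sub_one_of_pos (show (0 : ℝ) < 2 * k by linarith)
    linarith
  have h6 : Real.sqrt (n * Real.log n) ≤ k * Real.sqrt (n * Real.log n) := by nlinarith
  have h7 : 2 * (k : ℝ) ≤ 2 * k * Real.sqrt (n * Real.log n) := by nlinarith
  nlinarith

theorem t_FIN (hU : S_UP) (hL : S_LOW) : S_FIN := by
  obtain ⟨C, hC, hu⟩ := hU
  obtain ⟨c, hc, hl⟩ := hL
  have hb : ∀ n k : ℕ, 2 ≤ n → 1 ≤ k → (vals n k).Nonempty ∧ BddAbove (vals n k) ∧
    (f n k : ℝ) ≤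
      Real.exp (C * (k * Real.sqrt (n * Real.log n) + (k : ℝ) ^ 4 * Real.log (n + k))) := by
    intro n k hn hk
    have hne : (vals n k).Nonempty := by
      obtain ⟨A, hA, _⟩ := hl n k hn hk
      exact ⟨_, A, hA, rfl⟩
    have hbd : BddAbove (vals n k) := by
      refine ⟨⌊Real.exp (C * (k * Real.sqrt (n * Real.log n) +
        (k : ℝ) ^ 4 * Real.log (n + k)))⌋₊, ?_⟩
      rintro m ⟨A, hA, rfl⟩
      exact Nat.le_floor (hu n k A hn hk hA)
    refine ⟨hne, hbd, ?_⟩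
    obtain ⟨A, hA, hm⟩ := Nat.sSup_mem hne hbd
    unfold f
    rw [hm]
    exact hu n k A hn hk hA
  refine ⟨⟨C, hC, hb⟩, ⟨c, hc, ?_⟩, ?_⟩
  · intro n k hn hk
    obtain ⟨A, hA, h⟩ := hl n k hn hk
    refine h.trans ?_
    have : sc (JL A) ≤ f n k := le_csSup (hb n k hn hk).2.1 ⟨A, hA, rfl⟩
    exact_mod_cast this
  · intro k hk
    have hk0 : (1 : ℝ) ≤ k := by exact_mod_cast hk
    refine ⟨C * (k + 4 * (k : ℝ) ^ 5), by positivity, ?_⟩
    intro n hn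
    refine (hb n k hn hk).2.2.trans ?_
    apply Real.exp_le_exp.2
    have h1 := log_le_sqrt n k hn hk
    have h2 : (k : ℝ) ^ 4 * Real.log (n + k) ≤ 4 * (k : ℝ) ^ 5 * Real.sqrt (n * Real.log n) := by
      calc (k : ℝ) ^ 4 * Real.log (n + k) ≤ (k : ℝ) ^ 4 * (4 * k * Real.sqrt (n * Real.log n)) := by
            gcongr
        _ = _ := by ring
    calc C * (k * Real.sqrt (n * Real.log n) + (k : ℝ) ^ 4 * Real.log (n + k))
        ≤ C * (k * Real.sqrt (n * Real.log n) + 4 * (k : ℝ) ^ 5 * Real.sqrt (n * Real.log n)) := by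
          gcongr
      _ = _ := by ring

end Pool.Agent.K1H35.JA
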