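import Mathlib
import Pool.Agent.K1H35.JA.Stm

/-!
Piece LAN2 of project JA (MP_a0040c_lc): upper bound for Landau's function.
-/

set_option autoImplicit false

namespace Pool.Agent.K1H35.JA.Lan2

open Finset

/-- part of `v` composed of the primes `≤ N` -/
def sm (N v : ℕ) : ℕ := ∏ p ∈ v.primeFactors.filter (fun p => p ≤ N), p ^ v.factorization p

/-- part of `v` composed of the primes `> N` -/
def lg (N v : ℕ) : ℕ := ∏ p ∈ v.primeFactors.filter (fun p => ¬ p ≤ N), p ^ v.factorization p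

theorem sm_mul_lg (N v : ℕ) (hv : v ≠ 0) : sm N v * lg N v = v := by
  unfold sm lg
  rw [Finset.prod_filter_mul_prod_filter_not]
  exact Nat.prod_factorization_pow_eq_self hv

/-- the product of the small prime powers -/
def AA (N n : ℕ) : ℕ := ∏ p ∈ (Finset.range (N + 1)).filter Nat.Prime, p ^ Nat.log p n

theorem sm_dvd (N n v : ℕ) (hv : v ≠ 0) (hvn : v ≤ n) : sm N v ∣ AA N n := by
  unfold sm AA
  refine (Finset.prod_dvd_prod_of_dvd _ (fun p => p ^ Nat.log p n) ?_).trans
    (Finset.prod_dvd_prod_of_subset _ _ _ ?_)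
  · intro p hp
    rw [Finset.mem_filter] at hp
    have hpp : p.Prime := Nat.prime_of_mem_primeFactors hp.1
    refine pow_dvd_pow p ?_
    exact Nat.le_log_of_pow_le hpp.one_lt ((Nat.ordProj_le p hv).trans hvn)
  · intro p hp
    rw [Finset.mem_filter] at hp ⊢
    have hpp : p.Prime := Nat.prime_of_mem_primeFactors hp.1
    exact ⟨Finset.mem_range.2 (by omega), hpp⟩

theorem AA_le (N n : ℕ) (hn : n ≠ 0) : AA N n ≤ n ^ Nat.primeCounting N := by
  unfold AA
  have h := Finset.prod_le_pow_card ((Finset.range (N + 1)).filter Nat.Prime)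
    (fun p => p ^ Nat.log p n) n (fun p _ => Nat.pow_log_le_self p hn)
  have e : ((Finset.range (N + 1)).filter Nat.Prime).card = Nat.primeCounting N := by
    rw [Nat.primeCounting, Nat.primeCounting', Nat.count_eq_card_filter_range]
  rwa [e] at h

theorem lg_le (N v : ℕ) (hv : v ≠ 0) : lg N v ≤ v := by
  have h := sm_mul_lg N v hv
  exact Nat.le_of_dvd (Nat.pos_of_ne_zero hv) (Dvd.intro_left _ h)

theorem lt_of_lg (N v : ℕ) (_hv : v ≠ 0) (h : lg N v ≠ 1) : N < v := by
  by_contra hcon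
  apply h
  unfold lg
  have : v.primeFactors.filter (fun p => ¬ p ≤ N) = ∅ := by
    rw [Finset.filter_eq_empty_iff]
    intro p hp hp'
    have := Nat.le_of_mem_primeFactors hp
    omega
  rw [this, Finset.prod_empty]

theorem lcm_le (N n : ℕ) (V : Finset ℕ) (hn : n ≠ 0) (hV : ∀ v ∈ V, 0 < v)
    (hs : ∑ v ∈ V, v ≤ n) :
    ∃ c : ℕ, c * (N + 1) ≤ n ∧ V.lcm id ≤ n ^ (Nat.primeCounting N + c) := by
  have hvn : ∀ v ∈ V, v ≤ n := fun v hv =>
    (Finset.single_le_sum (f := fun v => v) (fun i _ => Nat.zero_le i) hv).trans hs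
  set W := V.filter (fun v => lg N v ≠ 1) with hW
  refine ⟨W.card, ?_, ?_⟩
  · calc W.card * (N + 1) = ∑ _v ∈ W, (N + 1) := by rw [Finset.sum_const, smul_eq_mul]
      _ ≤ ∑ v ∈ W, v := by
          refine Finset.sum_le_sum fun v hv => ?_
          rw [hW, Finset.mem_filter] at hv
          exact lt_of_lg N v (hV v hv.1).ne' hv.2
      _ ≤ ∑ v ∈ V, v := Finset.sum_le_sum_of_subset (Finset.filter_subset _ _)
      _ ≤ n := hs
  · have hd : V.lcm id ∣ AA N n * ∏ v ∈ V, lg N v := by
      refine Finset.lcm_dvd fun v hv => ?_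
      have h0 := (hV v hv).ne'
      show v ∣ _
      have h1 : sm N v * lg N v ∣ AA N n * ∏ v ∈ V, lg N v :=
        mul_dvd_mul (sm_dvd N n v h0 (hvn v hv)) (Finset.dvd_prod_of_mem _ hv)
      rwa [sm_mul_lg N v h0] at h1
    have hp : ∏ v ∈ V, lg N v = ∏ v ∈ W, lg N v := by
      rw [hW]
      exact (Finset.prod_filter_ne_one V).symm
    have hB : ∏ v ∈ V, lg N v ≤ n ^ W.card := by
      rw [hp]
      refine Finset.prod_le_pow_card _ _ _ fun v hv => ?_
      rw [hW, Finset.mem_filter] at hv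
      exact (lg_le N v (hV v hv.1).ne').trans (hvn v hv.1)
    have hA0 : 0 < AA N n := by
      unfold AA
      refine Finset.prod_pos fun p hp => ?_
      rw [Finset.mem_filter] at hp
      exact pow_pos hp.2.pos _
    have hB0 : 0 < ∏ v ∈ V, lg N v := by
      refine Finset.prod_pos fun v hv => ?_
      have h := sm_mul_lg N v (hV v hv).ne'
      exact Nat.pos_of_ne_zero (fun h0 => (hV v hv).ne' (by rw [← h, h0, mul_zero]))
    calc V.lcm id ≤ AA N n * ∏ v ∈ V, lg N v := Nat.le_of_dvd (Nat.mul_pos hA0 hB0) hd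
      _ ≤ n ^ Nat.primeCounting N * n ^ W.card := Nat.mul_le_mul (AA_le N n hn) hB
      _ = n ^ (Nat.primeCounting N + W.card) := (pow_add _ _ _).symm

theorem lan2 : ∀ (n : ℕ) (V : Finset ℕ), 2 ≤ n → (∀ v ∈ V, 0 < v) → ∑ v ∈ V, v ≤ n →
    ((V.lcm id : ℕ) : ℝ) ≤ Real.exp (11 * Real.sqrt (n * Real.log n)) := by
  intro n V hn hV hs
  have hn0 : n ≠ 0 := by omega
  have hlog2 : (0.6931471803 : ℝ) < Real.log 2 := Real.log_two_gt_d9
  have hlog2' : Real.log 2 < (0.6931471808 : ℝ) := Real.log_two_lt_d9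
  rcases Nat.lt_or_ge n 3 with h3 | h3
  · -- n = 2
    have hn2 : n = 2 := by omega
    subst hn2
    have hvn : ∀ v ∈ V, v ≤ 2 := fun v hv =>
      (Finset.single_le_sum (f := fun v => v) (fun i _ => Nat.zero_le i) hv).trans hs
    have hd : V.lcm id ∣ 2 := by
      refine Finset.lcm_dvd fun v hv => ?_
      show v ∣ 2
      have h1 := hV v hv
      have h2 := hvn v hv
      interval_cases v
      · norm_num
      · norm_num
    have hle : V.lcm id ≤ 2 := Nat.le_of_dvd (by norm_num) hd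
    have hX : (1 : ℝ) ≤ Real.sqrt (((2 : ℕ) : ℝ) * Real.log ((2 : ℕ) : ℝ)) := by
      rw [Real.one_le_sqrt]
      push_cast
      nlinarith
    calc ((V.lcm id : ℕ) : ℝ) ≤ ((2 : ℕ) : ℝ) := by exact_mod_cast hle
      _ ≤ 11 * Real.sqrt (((2 : ℕ) : ℝ) * Real.log ((2 : ℕ) : ℝ)) + 1 := by
          push_cast at hX ⊢
          linarith
      _ ≤ _ := Real.add_one_le_exp _
  · -- n ≥ 3
    have hnR : (3 : ℝ) ≤ (n : ℝ) := by exact_mod_cast h3
    have hnpos : (0 : ℝ) < (n : ℝ) := by linarith
    have hlogn : (1 : ℝ) ≤ Real.log n := by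
      rw [Real.le_log_iff_exp_le hnpos]
      have := Real.exp_one_lt_d9
      linarith
    set X : ℝ := Real.sqrt ((n : ℝ) * Real.log n) with hXdef
    have hX2 : X ^ 2 = (n : ℝ) * Real.log n := by
      rw [hXdef]
      exact Real.sq_sqrt (by positivity)
    have hXn : Real.sqrt n ≤ X := by
      rw [hXdef]
      refine Real.sqrt_le_sqrt ?_
      nlinarith
    have hsn : (1 : ℝ) < Real.sqrt n := by
      rw [Real.lt_sqrt (by norm_num)]
      linarith
    have hX1 : (1 : ℝ) < X := lt_of_lt_of_le hsn hXn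
    have hX0 : (0 : ℝ) < X := by linarith
    have hlogX : Real.log n / 2 ≤ Real.log X := by
      have h1 : Real.log (Real.sqrt n) = Real.log n / 2 := Real.log_sqrt (by positivity)
      rw [← h1]
      exact Real.log_le_log (by linarith) hXn
    obtain ⟨c, hc, hL⟩ := lcm_le ⌊X⌋₊ n V hn0 hV hs
    have hpi := Chebyshev.pi_le_log4_mul_div hX1
    -- cast
    have hL' : ((V.lcm id : ℕ) : ℝ) ≤
        Real.exp (((Nat.primeCounting ⌊X⌋₊ : ℝ) + c) * Real.log n) := by
      have h1 : ((V.lcm id : ℕ) : ℝ) ≤ (n : ℝ) ^ (Nat.primeCounting ⌊X⌋₊ + c) := by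
        exact_mod_cast hL
      refine h1.trans (le_of_eq ?_)
      rw [← Real.rpow_natCast, Real.rpow_def_of_pos hnpos]
      push_cast
      ring_nf
    refine hL'.trans (Real.exp_le_exp.2 ?_)
    -- the large primes
    have hcX : (c : ℝ) * X ≤ n := by
      have h1 : ((c * (⌊X⌋₊ + 1) : ℕ) : ℝ) ≤ (n : ℝ) := by exact_mod_cast hc
      push_cast at h1
      have h2 : X < (⌊X⌋₊ : ℝ) + 1 := Nat.lt_floor_add_one X
      have h3 : (0 : ℝ) ≤ (c : ℝ) := Nat.cast_nonneg c
      nlinarith
    have hc2 : (c : ℝ) * Real.log n ≤ X := by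
      have h1 : ((c : ℝ) * Real.log n) * X ≤ X * X := by
        have : (c : ℝ) * X * Real.log n ≤ n * Real.log n :=
          mul_le_mul_of_nonneg_right hcX (by linarith)
        nlinarith
      exact le_of_mul_le_mul_right h1 hX0
    -- the small primes
    have hlsX : Real.log (Real.sqrt X) = Real.log X / 2 := Real.log_sqrt hX0.le
    have hlogX0 : 0 < Real.log X := Real.log_pos hX1
    have hl4 : Real.log 4 ≤ 1.4 := by
      have : Real.log 4 = 2 * Real.log 2 := by
        rw [show (4 : ℝ) = 2 ^ 2 by norm_num, Real.log_pow]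
        norm_num
      rw [this]
      linarith
    have hl40 : 0 ≤ Real.log 4 := Real.log_nonneg (by norm_num)
    have h1 : Real.log 4 * X / Real.log (Real.sqrt X) * Real.log n ≤ 5.6 * X := by
      rw [hlsX]
      rw [div_mul_eq_mul_div, div_le_iff₀ (by linarith)]
      have ha : Real.log n ≤ 2 * Real.log X := by linarith
      have hb : Real.log 4 * X * Real.log n ≤ Real.log 4 * X * (2 * Real.log X) :=
        mul_le_mul_of_nonneg_left ha (by positivity)
      have hc' : Real.log 4 * (X * (2 * Real.log X)) ≤ 1.4 * (X * (2 * Real.log X)) :=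
        mul_le_mul_of_nonneg_right hl4 (by positivity)
      nlinarith
    have h2 : Real.sqrt X * Real.log n ≤ 4 * X := by
      have hs0 : 0 < Real.sqrt X := Real.sqrt_pos.2 hX0
      have hss : Real.sqrt X * Real.sqrt X = X := Real.mul_self_sqrt hX0.le
      have ha : Real.log (Real.sqrt X) ≤ Real.sqrt X := by
        have := Real.log_le_sub_one_of_pos hs0
        linarith
      have hb : Real.log n ≤ 4 * Real.sqrt X := by
        rw [hlsX] at ha
        linarith
      calc Real.sqrt X * Real.log n ≤ Real.sqrt X * (4 * Real.sqrt X) :=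
            mul_le_mul_of_nonneg_left hb hs0.le
        _ = 4 * (Real.sqrt X * Real.sqrt X) := by ring
        _ = 4 * X := by rw [hss]
    have h3' : (Nat.primeCounting ⌊X⌋₊ : ℝ) * Real.log n ≤
        (Real.log 4 * X / Real.log (Real.sqrt X) + Real.sqrt X) * Real.log n :=
      mul_le_mul_of_nonneg_right hpi (by linarith)
    nlinarith

end Pool.Agent.K1H35.JA.Lan2
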