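import Pool.Agent.K1H35.JA.Stm2

namespace Pool.Agent.K1H35.JA

open Finset

theorem t_LOW2 (hA : S_LOWK) (hB : S_LOWB) : S_LOW2 := by
  obtain ⟨c0, n0, hc0, hV⟩ := hB
  obtain ⟨n1, hn1⟩ : ∃ n1 : ℕ, n1 = max n0 3 := ⟨_, rfl⟩
  have hn1' : (3 : ℝ) ≤ n1 := by
    have : 3 ≤ n1 := by omega
    exact_mod_cast this
  refine ⟨min (c0 / 2) (Real.log 2 / n1), lt_min (by positivity) (by positivity), ?_⟩
  obtain ⟨c, hc⟩ : ∃ c : ℝ, c = min (c0 / 2) (Real.log 2 / n1) := ⟨_, rfl⟩
  rw [← hc]
  have hc1 : c ≤ c0 / 2 := hc ▸ min_le_left _ _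
  have hc2 : c ≤ Real.log 2 / n1 := hc ▸ min_le_right _ _
  have hcpos : 0 < c := by
    rw [hc]; exact lt_min (by positivity) (by positivity)
  intro n k hk hkn
  have hk0 : (0 : ℝ) < k := by exact_mod_cast hk
  obtain ⟨r, hr⟩ : ∃ r : ℝ, r = (n : ℝ) / k := ⟨_, rfl⟩
  have hnr : (n : ℝ) = k * r := by rw [hr]; field_simp
  have hr2 : 2 ≤ r := by
    rw [hr, le_div_iff₀ hk0]
    exact_mod_cast hkn.le
  have hlogr : 0 ≤ Real.log r := Real.log_nonneg (by linarith)
  have hsq : Real.sqrt (n * k * Real.log (n / k)) = k * Real.sqrt (r * Real.log r) := by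
    rw [← hr, hnr]
    have : (k : ℝ) * r * k * Real.log r = (k : ℝ) ^ 2 * (r * Real.log r) := by ring
    rw [this, Real.sqrt_mul (by positivity), Real.sqrt_sq hk0.le]
  rw [hsq]
  rcases Nat.lt_or_ge (n / k) n1 with hc' | hc'
  · -- small
    obtain ⟨A, hA1, hA2⟩ := hA n k {2} hk (by simp [Nat.prime_two]) (by simp) (by
      rw [sum_singleton]; omega)
    refine ⟨A, hA1, ?_⟩
    rw [prod_singleton] at hA2
    have h1 : (2 : ℝ) ^ k ≤ sc (JL A) := by exact_mod_cast hA2
    refine le_trans ?_ h1
    have hrn : r ≤ n1 := by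
      rw [hr, div_le_iff₀ hk0]
      have : n ≤ n1 * k := by
        have h3 : n < (n / k + 1) * k := by
          rw [Nat.add_mul, one_mul]
          exact Nat.lt_div_mul_add (by omega)
        have h4 : (n / k + 1) * k ≤ n1 * k := Nat.mul_le_mul_right _ hc'
        omega
      exact_mod_cast this
    have hlr : Real.log r ≤ r := by
      have := Real.log_le_sub_one_of_pos (show 0 < r by linarith)
      linarith
    have h2 : Real.sqrt (r * Real.log r) ≤ n1 := by
      apply Real.sqrt_le_iff.2
      constructor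
      · positivity
      · nlinarith
    have h3 : c * (k * Real.sqrt (r * Real.log r)) ≤ k * Real.log 2 := by
      calc c * (k * Real.sqrt (r * Real.log r)) ≤ (Real.log 2 / n1) * (k * n1) := by gcongr
        _ = k * Real.log 2 := by field_simp
    calc Real.exp (c * (k * Real.sqrt (r * Real.log r))) ≤ Real.exp (k * Real.log 2) :=
          Real.exp_le_exp.2 h3
      _ = 2 ^ k := by
          rw [mul_comm, Real.exp_mul, Real.exp_log (by norm_num), Real.rpow_natCast]
  · obtain ⟨V, h1, h2, h3, h4⟩ := hV (n / k) (by omega)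
    obtain ⟨A, hA1, hA2⟩ := hA n k V hk h1 h2 (by
      have h5 : k * (n / k) ≤ n := Nat.mul_div_le n k
      have h6 : k * (∑ p ∈ V, p + 1) ≤ k * (n / k) := Nat.mul_le_mul_left _ h3
      rw [Nat.mul_add, mul_one] at h6
      omega)
    refine ⟨A, hA1, ?_⟩
    have h5 : ((∏ p ∈ V, p : ℕ) : ℝ) ^ k ≤ sc (JL A) := by exact_mod_cast hA2
    refine le_trans ?_ h5
    refine le_trans ?_ (pow_le_pow_left₀ (Real.exp_nonneg _) h4 k)
    rw [← Real.exp_nat_mul]
    apply Real.exp_le_exp.2
    obtain ⟨m, hm⟩ : ∃ m : ℕ, m = n / k := ⟨_, rfl⟩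
    rw [← hm]
    have hm3 : (3 : ℝ) ≤ m := by
      have : 3 ≤ m := by omega
      exact_mod_cast this
    have hrm : r ≤ 2 * m := by
      rw [hr, div_le_iff₀ hk0]
      have : n ≤ 2 * m * k := by
        have h3 : n < (n / k + 1) * k := by
          rw [Nat.add_mul, one_mul]
          exact Nat.lt_div_mul_add (by omega)
        rw [← hm] at h3
        have h4 : (m + 1) * k ≤ 2 * m * k := Nat.mul_le_mul_right _ (by
          have : 3 ≤ m := by omega
          omega)
        omega
      exact_mod_cast this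
    have hlr : Real.log r ≤ 2 * Real.log m := by
      calc Real.log r ≤ Real.log (2 * m) := Real.log_le_log (by linarith) hrm
        _ ≤ Real.log (m * m) := by
            apply Real.log_le_log (by positivity)
            nlinarith
        _ = 2 * Real.log m := by rw [Real.log_mul (by positivity) (by positivity)]; ring
    have hlm : 0 ≤ Real.log m := Real.log_nonneg (by linarith)
    have h6 : Real.sqrt (r * Real.log r) ≤ 2 * Real.sqrt (m * Real.log m) := by
      have : (2 : ℝ) * Real.sqrt (m * Real.log m) = Real.sqrt (4 * (m * Real.log m)) := by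
        have h4 : Real.sqrt (4 * (m * Real.log m)) = Real.sqrt 4 * Real.sqrt (m * Real.log m) :=
          Real.sqrt_mul (by norm_num) _
        have h5 : Real.sqrt 4 = 2 := by
          rw [show (4 : ℝ) = 2 ^ 2 by norm_num]
          exact Real.sqrt_sq (by norm_num)
        rw [h4, h5]
      rw [this]
      apply Real.sqrt_le_sqrt
      nlinarith
    calc c * (k * Real.sqrt (r * Real.log r))
        ≤ (c0 / 2) * (k * (2 * Real.sqrt (m * Real.log m))) := by gcongr
      _ = k * (c0 * Real.sqrt (m * Real.log m)) := by ring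

end Pool.Agent.K1H35.JA
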