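import Pool.Agent.K1H35.JA.All
import Pool.Agent.K1H35.JA.Lan2
import Pool.Agent.K1H35.JA.Low2

namespace Pool.Agent.K1H35.JA

open Finset

/-- the explicit upper bound -/
theorem up_exp (n k : ℕ) (A : Aut n k) (hn2 : 2 ≤ n) (hk : 1 ≤ k) (hreg : (JL A).IsRegular) :
    (sc (JL A) : ℝ) ≤ ((n : ℝ) + k) ^ (30 * k ^ 4) *
      Real.exp (11 * k * Real.sqrt (n * Real.log n)) := by
  choose V hV1 hV2 hV3 using r_LAN1 n k A
  have hkk : (Finset.univ : Finset (Fin k)).Nonempty := ⟨⟨0, hk⟩, Finset.mem_univ _⟩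
  obtain ⟨i0, _, hi0⟩ := Finset.exists_max_image Finset.univ (fun i => (V i).lcm id) hkk
  have hP : S_PUMP := Pool.Agent.K1H85.JA.t_PUMP r_SEMI r_CARA r_MEM r_CMP r_LP
  have h3 := up A r_UPD r_REG r_SLICE hP hreg ((V i0).lcm id) V hV3
    (fun i => hi0 i (Finset.mem_univ _))
  have h4 := Pool.Agent.K1H33.JA.nthr_le hn2 hk (hV3 i0).1
  have h5 : sc (JL A) ≤ ((n + k) ^ (30 * k ^ 3) * (V i0).lcm id) ^ k :=
    h3.trans (Nat.pow_le_pow_left h4 k)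
  have h6 := Pool.Agent.K1H35.JA.Lan2.lan2 n (V i0) hn2 (hV1 i0) (hV2 i0)
  have h7 : (sc (JL A) : ℝ) ≤ (((n : ℝ) + k) ^ (30 * k ^ 3) * (((V i0).lcm id : ℕ) : ℝ)) ^ k := by
    exact_mod_cast h5
  refine h7.trans ?_
  calc (((n : ℝ) + k) ^ (30 * k ^ 3) * (((V i0).lcm id : ℕ) : ℝ)) ^ k
      ≤ (((n : ℝ) + k) ^ (30 * k ^ 3) * Real.exp (11 * Real.sqrt (n * Real.log n))) ^ k := by
        gcongr
    _ = _ := by
        rw [mul_pow, ← pow_mul, ← Real.exp_nat_mul]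
        congr 2
        · ring
        · ring

theorem nonempty_bdd (n k : ℕ) (hn : 2 ≤ n) (hk : 1 ≤ k) :
    (vals n k).Nonempty ∧ BddAbove (vals n k) ∧
      (f n k : ℝ) ≤ ((n : ℝ) + k) ^ (30 * k ^ 4) *
        Real.exp (11 * k * Real.sqrt (n * Real.log n)) := by
  have hne : (vals n k).Nonempty := by
    obtain ⟨c, _, hl⟩ := r_LOW
    obtain ⟨A, hA, _⟩ := hl n k hn hk
    exact ⟨_, A, hA, rfl⟩
  have hbd : BddAbove (vals n k) := by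
    refine ⟨⌊((n : ℝ) + k) ^ (30 * k ^ 4) *
        Real.exp (11 * k * Real.sqrt (n * Real.log n))⌋₊, ?_⟩
    rintro m ⟨A, hA, rfl⟩
    exact Nat.le_floor (up_exp n k A hn hk hA)
  refine ⟨hne, hbd, ?_⟩
  obtain ⟨A, hA, hm⟩ := Nat.sSup_mem hne hbd
  unfold f
  rw [hm]
  exact up_exp n k A hn hk hA

theorem le_f (n k : ℕ) (hn : 2 ≤ n) (hk : 1 ≤ k) (A : Aut n k) (hA : (JL A).IsRegular) :
    sc (JL A) ≤ f n k := le_csSup (nonempty_bdd n k hn hk).2.1 ⟨A, hA, rfl⟩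

theorem growth (k : ℕ) (hk : 1 ≤ k) : ∃ c C : ℝ, 0 < c ∧ 0 < C ∧ ∀ n : ℕ, 2 ≤ n →
    Real.exp (c * Real.sqrt (n * Real.log n)) ≤ (f n k : ℝ) ∧
    (f n k : ℝ) ≤ Real.exp (C * Real.sqrt (n * Real.log n)) := by
  obtain ⟨c, hc, hl⟩ := r_LOW
  have hk0 : (1 : ℝ) ≤ k := by exact_mod_cast hk
  refine ⟨c, 120 * (k : ℝ) ^ 5 + 11 * k, hc, by positivity, ?_⟩
  intro n hn
  constructor
  · obtain ⟨A, hA, h⟩ := hl n k hn hk
    refine h.trans ?_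
    exact_mod_cast le_f n k hn hk A hA
  · refine (nonempty_bdd n k hn hk).2.2.trans ?_
    have hB : (0 : ℝ) < (n : ℝ) + k := by positivity
    have h1 := log_le_sqrt n k hn hk
    have h2 : ((n : ℝ) + k) ^ (30 * k ^ 4) =
        Real.exp ((30 * k ^ 4 : ℕ) * Real.log ((n : ℝ) + k)) := by
      rw [Real.exp_nat_mul, Real.exp_log hB]
    rw [h2, ← Real.exp_add]
    apply Real.exp_le_exp.2
    push_cast
    have h3 : 30 * (k : ℝ) ^ 4 * Real.log (n + k) ≤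
        30 * (k : ℝ) ^ 4 * (4 * k * Real.sqrt (n * Real.log n)) := by gcongr
    calc 30 * (k : ℝ) ^ 4 * Real.log (n + k) + 11 * k * Real.sqrt (n * Real.log n)
        ≤ 30 * (k : ℝ) ^ 4 * (4 * k * Real.sqrt (n * Real.log n)) +
          11 * k * Real.sqrt (n * Real.log n) := by linarith
      _ = _ := by ring

theorem low2 (hK : S_LOWK) : ∃ c : ℝ, 0 < c ∧ ∀ n k : ℕ, 1 ≤ k → 2 * k < n →
    Real.exp (c * Real.sqrt (n * k * Real.log (n / k))) ≤ (f n k : ℝ) := by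
  obtain ⟨c, hc, h⟩ := t_LOW2 hK r_LOWB
  refine ⟨c, hc, fun n k hk hkn => ?_⟩
  obtain ⟨A, hA, h1⟩ := h n k hk hkn
  refine h1.trans ?_
  exact_mod_cast le_f n k (by omega) hk A hA

end Pool.Agent.K1H35.JA
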