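import Pool.Agent.K1H35.JA.Fin
import Pool.Agent.K1H94.JA.LOWK

namespace Pool.Agent.K1H35.JA

theorem r_LOWK : S_LOWK := Pool.Agent.K1H94.JA.LOWK.t_LOWK r_JL

end Pool.Agent.K1H35.JA
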