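import Pool.Agent.K1H35.JA.Stm

/-! Project JA, second interface: the lower bound for all `k`. -/

namespace Pool.Agent.K1H35.JA

open Finset

/-- Piece LOWK: automata with large state complexity, `k` independent counters. -/
def S_LOWK : Prop := ∀ (n k : ℕ) (V : Finset ℕ), 1 ≤ k → (∀ p ∈ V, p.Prime) → V.Nonempty →
  k * ∑ p ∈ V, p + 1 ≤ n → ∃ A : Aut n k, (JL A).IsRegular ∧ (∏ p ∈ V, p) ^ k ≤ sc (JL A)

/-- The lower bound for `2 k < n`. -/
def S_LOW2 : Prop := ∃ c : ℝ, 0 < c ∧ ∀ n k : ℕ, 1 ≤ k → 2 * k < n →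
  ∃ A : Aut n k, (JL A).IsRegular ∧
    Real.exp (c * Real.sqrt (n * k * Real.log (n / k))) ≤ (sc (JL A) : ℝ)

end Pool.Agent.K1H35.JA
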